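import Pool.Agent.Q60.D3E.Stm2

/-!
# Project D3E of helper60, job E1a: CM fields
-/

set_option autoImplicit false

namespace Pool.Agent.Q81.D3E

open NumberField NumberField.InfinitePlace

/-- a number field with a complex conjugation which is not real is a CM field -/
theorem cmf : Pool.Agent.Q60.D3E.S_cmf := by
  intro K _ _ c hc hne
  obtain ⟨φ₀⟩ : Nonempty (K →+* ℂ) := inferInstance
  have hcc : ∀ x, c (c x) = x := by
    intro x
    apply φ₀.injective
    rw [hc, hc, starRingEnd_self_apply]
  let σ : K ≃ₐ[ℚ] K := AlgEquiv.ofRingEquiv (f := RingEquiv.ofRingHom c c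
    (RingHom.ext hcc) (RingHom.ext hcc)) (fun q => by simp)
  have hσ : ∀ x, σ x = c x := fun x => rfl
  have hσ2 : σ ^ 2 = 1 := by
    ext x
    rw [pow_two, AlgEquiv.mul_apply, hσ, hσ, hcc]
    rfl
  have hσ1 : σ ≠ 1 := by
    intro h
    apply hne φ₀
    ext x
    rw [ComplexEmbedding.conjugate_coe_eq, ← hc, ← hσ, h]
    rfl
  have hord : orderOf σ = 2 := orderOf_eq_prime hσ2 hσ1
  let L := IntermediateField.fixedField (Subgroup.zpowers σ)
  have hL : ∀ x : L, c (x : K) = x := by
    intro x
    have h1 := (IntermediateField.mem_fixedField_iff (Subgroup.zpowers σ) (x : K)).1 x.2 σ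
      (Subgroup.mem_zpowers σ)
    rwa [hσ] at h1
  have hquad : Algebra.IsQuadraticExtension L K := ⟨by
    rw [IntermediateField.finrank_fixedField_eq_card, Nat.card_zpowers, hord]⟩
  have hreal : IsTotallyReal L := ⟨fun w => by
    obtain ⟨W, rfl⟩ := comap_surjective (K := K) w
    dsimp only
    rw [← mk_embedding W, comap_mk, isReal_mk_iff, ComplexEmbedding.isReal_iff]
    ext x
    rw [ComplexEmbedding.conjugate_coe_eq]
    show starRingEnd ℂ (W.embedding (x : K)) = W.embedding (x : K)
    rw [← hc, hL]⟩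
  have hcomplex : IsTotallyComplex K := ⟨fun w => by
    rw [← mk_embedding w, isComplex_mk_iff, ComplexEmbedding.isReal_iff]
    exact hne _⟩
  exact IsCMField.ofCMExtension L K

end Pool.Agent.Q81.D3E
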