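import Pool.Agent.Q60.D3E.Stm2

/-!
# Project D3E of helper60, job E1d: the Rosati involution is the complex conjugation
-/

set_option autoImplicit false

namespace Pool.Agent.Q81.D3E

open NumberField Pool.Agent.H204R3.CM
open Pool.Agent.Q60.D3 (AV IsHom IsSimple IsCM)

section herm

variable {T : Type} [AddCommGroup T] [Module ℂ T] [FiniteDimensional ℂ T]

/-- the adjoint of a linear map with respect to a positive definite Hermitian form -/
theorem exists_adj (E : T → T → ℂ) (h1 : ∀ u', IsLinearMap ℂ fun u => E u u')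
    (h2 : ∀ u u', E u' u = starRingEnd ℂ (E u u')) (h3 : ∀ u, u ≠ 0 → 0 < (E u u).re)
    (S : T →ₗ[ℂ] T) : ∃ S' : T →ₗ[ℂ] T, ∀ u v, E (S u) v = E u (S' v) := by
  have hz : ∀ v, E 0 v = 0 := fun v => (h1 v).map_zero
  have ha : ∀ u u' v, E (u + u') v = E u v + E u' v := fun u u' v => (h1 v).map_add u u'
  have hs : ∀ (c : ℂ) u v, E (c • u) v = c * E u v := fun c u v => (h1 v).map_smul c u
  have ha2 : ∀ u v v', E u (v + v') = E u v + E u v' := by
    intro u v v'
    rw [h2 (v + v') u, ha, map_add, ← h2, ← h2]
  have hs2 : ∀ (c : ℂ) u v, E u (c • v) = starRingEnd ℂ c * E u v := by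
    intro c u v
    rw [h2 (c • v) u, hs, map_mul, ← h2]
  -- the map to the dual space
  let R : T →ₗ[ℝ] Module.Dual ℂ T :=
    { toFun := fun v => (h1 v).mk' _
      map_add' := fun v v' => by
        ext u
        exact ha2 u v v'
      map_smul' := fun c v => by
        ext u
        show E u (c • v) = c • E u v
        have h : c • v = (c : ℂ) • v := (algebraMap_smul ℂ c v).symm
        rw [h, hs2, Complex.conj_ofReal]
        rfl }
  have hR : ∀ v u, R v u = E u v := fun v u => rfl
  have hinj : Function.Injective R := by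
    rw [← LinearMap.ker_eq_bot, LinearMap.ker_eq_bot']
    intro v hv
    by_contra hne
    have h4 := h3 v hne
    have h5 : R v v = 0 := by rw [hv]; rfl
    rw [hR] at h5
    rw [h5] at h4
    simp at h4
  have hfr : Module.finrank ℝ T = Module.finrank ℝ (Module.Dual ℂ T) := by
    rw [← Module.finrank_mul_finrank ℝ ℂ T, ← Module.finrank_mul_finrank ℝ ℂ (Module.Dual ℂ T),
      Subspace.dual_finrank_eq]
  have : FiniteDimensional ℝ T := FiniteDimensional.trans ℝ ℂ T
  have : FiniteDimensional ℝ (Module.Dual ℂ T) := FiniteDimensional.trans ℝ ℂ _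
  have hsurj : Function.Surjective R :=
    (LinearMap.injective_iff_surjective_of_finrank_eq_finrank hfr).1 hinj
  have hex : ∀ v, ∃ v', ∀ u, E (S u) v = E u v' := by
    intro v
    obtain ⟨v', hv'⟩ := hsurj ((R v).comp S)
    refine ⟨v', fun u => ?_⟩
    have := LinearMap.congr_fun hv' u
    rw [hR, LinearMap.comp_apply, hR] at this
    exact this.symm
  choose f hf using hex
  have huniq : ∀ v v', (∀ u, E u v = E u v') → v = v' := by
    intro v v' h
    apply hinj
    ext u
    exact h u
  refine ⟨{ toFun := f, map_add' := fun v v' => ?_, map_smul' := fun c v => ?_ }, fun u v => hf v u⟩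
  · apply huniq
    intro u
    rw [← hf, ha2, ha2, ← hf, ← hf]
  · apply huniq
    intro u
    rw [← hf, RingHom.id_apply, hs2, hs2, ← hf]

end herm

/-- additive functions which are linear over the real numbers and agree on the lattice are equal -/
theorem ext_per {H T W : Type} [AddCommGroup H] [AddCommGroup T] [Module ℂ T] [AddCommGroup W]
    [Module ℝ W] (per : H →+ T) (hspan : Submodule.span ℝ (Set.range per) = ⊤)
    (f g : T →ₗ[ℝ] W) (h : ∀ w, f (per w) = g (per w)) : f = g := by
  apply LinearMap.ext_on_range (v := per) hspan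
  exact h

theorem ros : Pool.Agent.Q60.D3E.S_ros := by
  intro A K _ _ r Φ e C hr hall hΦ he hC
  obtain ⟨E, h1, h2, h3, h4⟩ := A.pol
  have ha : ∀ u u' v, E (u + u') v = E u v + E u' v := fun u u' v => (h1 v).map_add u u'
  have hs : ∀ (c : ℂ) u v, E (c • u) v = c * E u v := fun c u v => (h1 v).map_smul c u
  have ha2 : ∀ u v v', E u (v + v') = E u v + E u v' := by
    intro u v v'
    rw [h2 (v + v') u, ha, map_add, ← h2, ← h2]
  have hs2 : ∀ (c : ℂ) u v, E u (c • v) = starRingEnd ℂ c * E u v := by
    intro c u v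
    rw [h2 (c • v) u, hs, map_mul, ← h2]
  -- the imaginary part vanishes only at zero
  have hzero : ∀ z, (∀ w, (E (A.per w) z).im = 0) → z = 0 := by
    intro z hz
    let f : A.T →ₗ[ℝ] ℝ :=
      { toFun := fun u => (E u z).im
        map_add' := fun u u' => by rw [ha, Complex.add_im]
        map_smul' := fun c u => by
          have h : c • u = (c : ℂ) • u := (algebraMap_smul ℂ c u).symm
          rw [h, hs, Complex.im_ofReal_mul]
          rfl }
    have hf : f = 0 := ext_per A.per A.span f 0 fun w => hz w
    by_contra hne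
    have h5 := h3 z hne
    have h6 : f (Complex.I • z) = 0 := by rw [hf]; rfl
    have h7 : f (Complex.I • z) = (E (Complex.I • z) z).im := rfl
    rw [h7, hs, Complex.I_mul_im] at h6
    linarith
  -- the rational form
  choose q hq using h4
  have hadd1 : ∀ v v' w, q (v + v') w = q v w + q v' w := by
    intro v v' w
    have : ((q (v + v') w : ℚ) : ℝ) = (q v w : ℝ) + (q v' w : ℝ) := by
      rw [← hq, ← hq, ← hq, map_add, ha, Complex.add_im]
    exact_mod_cast this
  have hadd2 : ∀ v w w', q v (w + w') = q v w + q v w' := by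
    intro v w w'
    have : ((q v (w + w') : ℚ) : ℝ) = (q v w : ℝ) + (q v w' : ℝ) := by
      rw [← hq, ← hq, ← hq, map_add, ha2, Complex.add_im]
    exact_mod_cast this
  let B : A.H →+ A.H →+ ℚ := AddMonoidHom.mk' (fun v => AddMonoidHom.mk' (q v) (hadd2 v))
    (fun v v' => by ext w; exact hadd1 v v' w)
  let BL : LinearMap.BilinForm ℚ A.H :=
    { toFun := fun v => (B v).toRatLinearMap
      map_add' := fun v v' => by ext w; exact hadd1 v v' w
      map_smul' := fun c v => by
        ext w
        have h5 : (B (c • v)) w = c • (B v) w := by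
          have := map_rat_smul ((AddMonoidHom.flip B) w) c v
          exact this
        exact h5 }
  have hBL : ∀ v w, ((BL v w : ℚ) : ℝ) = (E (A.per v) (A.per w)).im := fun v w => (hq v w).symm
  have hperinj : ∀ w, A.per w = 0 → w = 0 := by
    intro w hw
    obtain ⟨φ₀⟩ : Nonempty (K →+* ℂ) := inferInstance
    have hne : ∃ φ, φ ∈ Φ := by
      by_cases h : φ₀ ∈ Φ
      · exact ⟨_, h⟩
      · have := (hΦ φ₀).not.1 h
        rw [not_not] at this
        exact ⟨_, this⟩
    obtain ⟨φ, hφ⟩ := hne
    have h5 := hC w ⟨φ, hφ⟩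
    rw [hw, map_zero] at h5
    have h6 : φ (e w) = 0 := h5.symm
    rw [map_eq_zero] at h6
    exact e.map_eq_zero_iff.1 h6
  have hskew : ∀ u v, (E u v).im = -(E v u).im := by
    intro u v
    rw [h2 v u, Complex.conj_im]
  have hnd : BL.Nondegenerate := by
    rw [LinearMap.BilinForm.nondegenerate_iff_ker_eq_bot]
    rw [LinearMap.ker_eq_bot']
    intro v hv
    apply hperinj
    apply hzero
    intro w
    rw [hskew, ← hBL]
    have : BL v w = 0 := by rw [hv]; rfl
    rw [this]
    simp
  -- the adjoint of the multiplication by x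
  have key : ∀ x : K, ∃ y : K, ∀ φ : K →+* ℂ, φ y = starRingEnd ℂ (φ x) := by
    intro x
    obtain ⟨S, hS⟩ := hr x
    obtain ⟨S', hS'⟩ := exists_adj E h1 h2 h3 S
    -- the rational adjoint
    let s' : A.H →ₗ[ℚ] A.H := BL.leftAdjointOfNondegenerate hnd (r x)
    have hs' : ∀ v w, BL (s' v) w = BL v (r x w) := by
      intro v w
      exact LinearMap.BilinForm.isAdjointPairLeftAdjointOfNondegenerate BL hnd (r x) v w
    have hhom : ∀ w, S' (A.per w) = A.per (s' w) := by
      intro w
      rw [← sub_eq_zero]
      apply hzero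
      intro v
      have e1 : E (A.per v) (S' (A.per w) - A.per (s' w)) =
          E (A.per v) (S' (A.per w)) - E (A.per v) (A.per (s' w)) := by
        have h5 : S' (A.per w) - A.per (s' w) = S' (A.per w) + (-1 : ℂ) • A.per (s' w) := by
          rw [neg_one_smul, sub_eq_add_neg]
        rw [h5, ha2, hs2, map_neg, map_one]
        ring
      rw [e1, Complex.sub_im, ← hS', hS, hskew (A.per v) (A.per (s' w)), hskew (A.per (r x v)),
        ← hBL, ← hBL, hs']
      ring
    obtain ⟨y, hy⟩ := hall s' ⟨S', hhom⟩
    refine ⟨y, ?_⟩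
    -- the action on the tangent space
    have act : ∀ (z : K) (S : A.T →ₗ[ℂ] A.T), (∀ w, S (A.per w) = A.per (r z w)) →
        ∀ (φ : Φ) (u : A.T), C (S u) φ = φ.1 z * C u φ := by
      intro z S hS φ u
      have h5 := ext_per A.per A.span
        (((LinearMap.proj φ : (Φ → ℂ) →ₗ[ℂ] ℂ).comp (C.toLinearMap.comp S)).restrictScalars ℝ)
        ((φ.1 z • ((LinearMap.proj φ : (Φ → ℂ) →ₗ[ℂ] ℂ).comp C.toLinearMap)).restrictScalars ℝ) (by
          intro w
          show C (S (A.per w)) φ = φ.1 z * C (A.per w) φ
          rw [hS, hC, he, map_mul, hC])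
      exact LinearMap.congr_fun h5 u
    have main : ∀ φ : Φ, φ.1 y = starRingEnd ℂ (φ.1 x) := by
      classical
      intro φ
      set u : A.T := C.symm (Pi.single φ 1) with hu
      have hCu : C u = Pi.single φ 1 := by rw [hu, LinearEquiv.apply_symm_apply]
      have eig : ∀ (z : K) (S : A.T →ₗ[ℂ] A.T), (∀ w, S (A.per w) = A.per (r z w)) →
          S u = φ.1 z • u := by
        intro z S hS
        apply C.injective
        funext ψ
        rw [act z S hS, map_smul, hCu, Pi.smul_apply, smul_eq_mul]
        by_cases hψ : ψ = φ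
        · rw [hψ]
        · rw [Pi.single_eq_of_ne hψ, mul_zero, mul_zero]
      have hune : u ≠ 0 := by
        intro h0
        have h5 : C u φ = 0 := by rw [h0, map_zero]; rfl
        rw [hCu, Pi.single_eq_same] at h5
        exact one_ne_zero h5
      have hE : E u u ≠ 0 := by
        intro h0
        have h5 := h3 u hune
        rw [h0] at h5
        simp at h5
      have h5 := hS' u u
      rw [eig x S hS, eig y S' (fun w => by rw [hhom, hy]), hs, hs2] at h5
      have h6 := mul_right_cancel₀ hE h5
      rw [h6, starRingEnd_self_apply]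
    intro φ
    by_cases hφ : φ ∈ Φ
    · exact main ⟨φ, hφ⟩
    · have h5 := (hΦ φ).not.1 hφ
      rw [not_not] at h5
      have h6 := main ⟨_, h5⟩
      simp only [ComplexEmbedding.conjugate_coe_eq, starRingEnd_self_apply] at h6
      have h7 := congrArg (starRingEnd ℂ) h6
      rw [starRingEnd_self_apply] at h7
      exact h7
  choose c hc using key
  obtain ⟨φ₀⟩ : Nonempty (K →+* ℂ) := inferInstance
  refine ⟨{
    toFun := c
    map_one' := ?_
    map_mul' := fun x y => ?_
    map_zero' := ?_
    map_add' := fun x y => ?_ }, fun φ x => hc x φ⟩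
  · apply φ₀.injective
    rw [hc, map_one, map_one]
  · apply φ₀.injective
    rw [hc, map_mul, map_mul, map_mul, hc, hc]
  · apply φ₀.injective
    rw [hc, map_zero, map_zero]
  · apply φ₀.injective
    rw [hc, map_add, map_add, map_add, hc, hc]

end Pool.Agent.Q81.D3E
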